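import Pool.Agent.Helper65.Gen3.Goals

/-!
# The general theorem with alternation, hardness against any linear amount of advice
-/

set_option autoImplicit false

namespace Pool.Agent.Helper8.Gen3

open Pool.Agent.Helper65.LinSpace Pool.Agent.Helper78.Avg Pool.Agent.Helper78.Gen2 Finset
open Pool.Agent.Helper65.Gen3

theorem one_le_two_rpow {x : ℝ} (hx : 0 ≤ x) : (1 : ℝ) ≤ 2 ^ (x / 2) :=
  Real.one_le_rpow (by norm_num) (by positivity)

theorem alt (h : HARD_stmt) : ALT_stmt := by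
  intro acc N hacc hN c k hk
  obtain ⟨L, h1, h4⟩ := h (UA acc N c) k hk
    (LS.app3 fun he ha hx => LS.UA hacc hN c he ha hx)
  refine ⟨L, h1, fun Acc Good ⟨e, n₀, he⟩ => ?_⟩
  refine ⟨(2 * k) ^ 2 * 2 ^ (e + 2) * 2 ^ n₀, fun n α M hM => ?_⟩
  have hk1 : (1 : ℝ) ≤ (2 * k) ^ 2 := by
    have hk2 : (1 : ℝ) ≤ k := by exact_mod_cast hk
    nlinarith
  have hn0 : (0 : ℝ) ≤ n := Nat.cast_nonneg n
  have hm0 : (0 : ℝ) ≤ α.length := Nat.cast_nonneg _
  have hk0 : (0 : ℝ) ≤ k := Nat.cast_nonneg _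
  have hP : (1 : ℝ) ≤ 2 ^ (((n : ℝ) + α.length / k) / 2) := one_le_two_rpow (by positivity)
  have hE : (1 : ℝ) ≤ 2 ^ (e + 2) := one_le_pow₀ (by norm_num)
  have hN0 : (1 : ℝ) ≤ 2 ^ n₀ := one_le_pow₀ (by norm_num)
  set P : ℝ := 2 ^ (((n : ℝ) + α.length / k) / 2) with hPdef
  set A : ℝ := (2 * k) ^ 2 * 2 ^ (e + 2) with hA
  have hA1 : 1 ≤ A := by
    rw [hA]
    nlinarith
  rcases Nat.lt_or_ge n n₀ with hn | hn
  · have h2 : ({w : List Bool | w.length = n ∧
            (Alt true (c * n) (fun v => Acc w (α ++ v)) → w ∈ M) ∧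
            (w ∈ M → Alt true (c * n) fun v => Good w (α ++ v))}.ncard : ℝ) ≤ 2 ^ n :=
      ncard_le_pow (fun w hw => hw.1)
    have h3 : (2 : ℝ) ^ n ≤ 2 ^ n₀ := pow_le_pow_right₀ (by norm_num) hn.le
    have h5 : (0 : ℝ) ≤ 2 ^ n := by positivity
    have h6 : (2 : ℝ) ^ n₀ ≤ A * 2 ^ n₀ := le_mul_of_one_le_left (by positivity) hA1
    have h7 : A * 2 ^ n₀ * 1 * 1 ≤ A * 2 ^ n₀ * ((α.length : ℝ) + 1) * P := by
      refine mul_le_mul (mul_le_mul_of_nonneg_left (by linarith) (by positivity)) hP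
        (by norm_num) (by positivity)
    linarith
  · have key : {w : List Bool | w.length = n ∧
            (Alt true (c * n) (fun v => Acc w (α ++ v)) → w ∈ M) ∧
            (w ∈ M → Alt true (c * n) fun v => Good w (α ++ v))} ⊆
        {w : List Bool | w.length = n ∧ (UA acc N c e (num α) (num w) ≠ 0 ↔ w ∈ M)} := by
      rintro w ⟨hw, hw1, hw2⟩
      obtain ⟨hs, hc⟩ := UA_spec (acc := acc) (N := N) c e (w := w) (a := α)
        (Acc := fun v => Acc w (α ++ v)) (Good := fun v => Good w (α ++ v))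
        (fun y S hS h => (he w (α ++ y) (by omega)).1 S hS h)
        (fun y hy => (he w (α ++ y) (by omega)).2 hy)
      subst hw
      exact ⟨rfl, fun h => hw1 (hs h), fun h => hc (hw2 h)⟩
    have h8 : ({w : List Bool | w.length = n ∧
            (Alt true (c * n) (fun v => Acc w (α ++ v)) → w ∈ M) ∧
            (w ∈ M → Alt true (c * n) fun v => Good w (α ++ v))}.ncard : ℝ) ≤
          2 ^ n / 2 + A * ((α.length : ℝ) + 1) * P := by
      refine ncard_le key (fun w hw => hw.1) ?_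
      rcases hM with rfl | rfl
      · exact (h4 e n α).1
      · exact (h4 e n α).2
    refine h8.trans ?_
    have h9 : A * ((α.length : ℝ) + 1) * P ≤ A * 2 ^ n₀ * ((α.length : ℝ) + 1) * P := by
      refine mul_le_mul_of_nonneg_right (mul_le_mul_of_nonneg_right ?_ (by positivity))
        (by positivity)
      exact le_mul_of_one_le_right (by positivity) hN0
    linarith

end Pool.Agent.Helper8.Gen3
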